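import Pool.Agent.V1170.DMQ2

set_option autoImplicit false

namespace Pool.Agent.Results.MP_67c69b_co.EvenDiameter

open Pool.Agent.V1170.DM

/-- Negated form of Q2: it is not true that every diameter-maximal `d`-regular graph of even
diameter `D` has girth `D`, `D + 1` or `D + 2`. -/
theorem result : ¬ ∀ (d D : ℕ) (V : Type) (_ : Fintype V) (_ : DecidableEq V)
    (G : SimpleGraph V) (_ : DecidableRel G.Adj), 3 ≤ d → Even D → DiameterMaximal G d D →
      (G.girth = D ∨ G.girth = D + 1 ∨ G.girth = D + 2) := by
  intro h
  have h1 := h 5 4 (Fin 22) inferInstance inferInstance Q2.G inferInstance (by norm_num)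
    (by decide) Q2.diamMax
  have h2 := Q2.girth_le
  omega

end Pool.Agent.Results.MP_67c69b_co.EvenDiameter
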